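import Pool.Agent.R689.FC4

namespace Pool.Agent.Results.MP_a7bda3_al.FrobeniusClosureLength

open R689FC

universe u

/-- Positive answer to Q1 of MP_a7bda3: let `R` be a Noetherian local ring of prime characteristic
`p` and dimension `d`, let `q` be generated by a system of parameters `x_0, ..., x_{d-1}`, and
suppose that the local cohomology modules `H^i_𝔪(R)` (cohomology of the Cech complex of `x`) have
finite length for `i < d`. Then `ℓ(q^F/q) ≤ ∑_{i ≤ d} binom(d,i) ℓ(0^F_{H^i_𝔪(R)})`. -/
theorem result {R : Type u} [CommRing R] [IsNoetherianRing R] [IsLocalRing R] (p : ℕ)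
    [Fact p.Prime] [CharP R p] (d : ℕ) (_hd : ringKrullDim R = d) (x : Fin d → R)
    (hx : (Ideal.span (Set.range x)).radical = IsLocalRing.maximalIdeal R)
    (hgcm : ∀ i < d, rlen (cocyc x i) (cobound x i) ≠ ⊤) :
    rlen (frobClosure p (Ideal.span (Set.range x))) (Ideal.span (Set.range x)) ≤
      ∑ i ∈ Finset.range (d + 1), (d.choose i : ℕ∞) * rlen (nilCocyc x p i) (cobound x i) := by
  refine main_ineq p x (fun j => ?_) hgcm
  rw [← hx]
  exact Ideal.le_radical (Ideal.subset_span ⟨j, rfl⟩)

end Pool.Agent.Results.MP_a7bda3_al.FrobeniusClosureLength
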