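import Pool.Agent.R688.FC.Main

/-!
# MP_a7bda3_al, Q1: lengths of Frobenius closures of parameter ideals

For every Noetherian local ring `R` of characteristic `p` and dimension `d` whose local cohomology
modules `H^i_𝔪(R)`, `i < d`, have finite length, and every parameter ideal `q`,
`ℓ(q^F / q) ≤ ∑ i, binom(d, i) ℓ(0^F_{H^i_𝔪(R)})`.
-/

namespace Pool.Agent.Results.MP_a7bda3_al.LengthBound

open Pool.Agent.R688.AN.Cech Pool.Agent.R688.FC

universe u

/-- `R` is generalized Cohen-Macaulay of dimension `d`: the local cohomology modules below the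
dimension, computed by the Čech complex on `f`, have finite length. -/
def IsGeneralizedCM {R : Type u} [CommRing R] {n : ℕ} (f : Fin n → R) (d : ℕ) : Prop :=
  ∀ i < d, Module.length R (CechH f i) ≠ ⊤

theorem result (p : ℕ) [Fact p.Prime] (R : Type u) [CommRing R] [IsNoetherianRing R]
    [IsLocalRing R] [CharP R p] (d : ℕ) (_ : ringKrullDim R = d)
    (n : ℕ) (f : Fin n → R)
    (hf : (Ideal.span (Set.range f)).radical = IsLocalRing.maximalIdeal R)
    (hR : IsGeneralizedCM f d)
    (x : Fin d → R) (q : Ideal R) (hq : q = Ideal.span (Set.range x))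
    (hx : q.radical = IsLocalRing.maximalIdeal R) :
    Module.length R (frobClosure p q ⧸ q.submoduleOf (frobClosure p q)) ≤
      ∑ i ∈ Finset.range (d + 1), (d.choose i : ℕ∞) * Module.length R (nilPart p f i) := by
  subst hq
  exact main p f hf d hR x hx

end Pool.Agent.Results.MP_a7bda3_al.LengthBound
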